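import Pool.Agent.H74.TSD.Targets

set_option autoImplicit false

open MeasureTheory Set Metric Filter
open scoped ENNReal Pointwise Topology

namespace Pool.Agent.H59.TSD

open Pool.Agent.H74.TSD Pool.Agent.H73.TS

/-- A compact convex subset of a horizontal line is a horizontal segment. -/
theorem line_eq_hsg (X : Set (ℝ × ℝ)) (t : ℝ) (hX : IsCompact X) (hc : Convex ℝ X)
    (hne : X.Nonempty) (h : ∀ x ∈ X, x.2 = t) :
    ∃ p l : ℝ, 0 ≤ l ∧ X = hsg p l t := by
  obtain ⟨x0, h0, hm0⟩ := hX.exists_isMinOn hne continuous_fst.continuousOn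
  obtain ⟨x1, h1, hm1⟩ := hX.exists_isMaxOn hne continuous_fst.continuousOn
  have hle : x0.1 ≤ x1.1 := hm0 h1
  refine ⟨x0.1, x1.1 - x0.1, by linarith, ?_⟩
  ext y
  constructor
  · intro hy
    have e1 : x0.1 ≤ y.1 := hm0 hy
    have e2 : y.1 ≤ x1.1 := hm1 hy
    exact ⟨e1, by linarith, h y hy⟩
  · rintro ⟨e1, e2, e3⟩
    have e2' : y.1 ≤ x1.1 := by linarith
    rcases eq_or_lt_of_le hle with he | hlt
    · have : y = x0 := by
        ext
        · linarith
        · rw [e3, h x0 h0]
      rw [this]; exact h0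
    · have hpos : 0 < x1.1 - x0.1 := by linarith
      have key : y = ((x1.1 - y.1) / (x1.1 - x0.1)) • x0 + ((y.1 - x0.1) / (x1.1 - x0.1)) • x1 := by
        ext
        · simp only [Prod.fst_add, Prod.smul_fst, smul_eq_mul]
          field_simp
          ring
        · simp only [Prod.snd_add, Prod.smul_snd, smul_eq_mul]
          rw [h x0 h0, h x1 h1, e3]
          field_simp
          ring
      rw [key]
      refine hc h0 h1 (div_nonneg (by linarith) hpos.le) (div_nonneg (by linarith) hpos.le) ?_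
      field_simp
      ring

theorem pf_A6 (h2 : T_A2) (h3 : T_A3) (h5 : T_A5) : T_A6 := by
  intro Z C t κ hZ hZc hC hCc hsym hC2 hκ hκC hn0 hn1 hZt
  obtain ⟨p, l, hl, hS0⟩ := line_eq_hsg (Z ∩ {x | x.2 = t}) t
    (hZ.inter_right (isClosed_eq continuous_snd continuous_const))
    (hZc.inter (by
      intro x hx y hy a b ha hb hab
      simp only [mem_ofPred_eq, Prod.snd_add, Prod.smul_snd, smul_eq_mul] at hx hy ⊢
      rw [hx, hy, ← add_mul, hab, one_mul])) hn0 (fun x hx => hx.2)
  obtain ⟨q, m, hm, hS1⟩ := line_eq_hsg (Z ∩ {x | x.2 = t + 1}) (t + 1)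
    (hZ.inter_right (isClosed_eq continuous_snd continuous_const))
    (hZc.inter (by
      intro x hx y hy a b ha hb hab
      simp only [mem_ofPred_eq, Prod.snd_add, Prod.smul_snd, smul_eq_mul] at hx hy ⊢
      rw [hx, hy, ← add_mul, hab, one_mul])) hn1 (fun x hx => hx.2)
  rw [hS0, hS1]
  have hCb : ∀ x ∈ C, (-1 / 2 : ℝ) ≤ x.2 ∧ x.2 ≤ -1 / 2 + 1 := by
    intro x hx
    have := abs_le.mp (hC2 x hx)
    constructor <;> linarith [this.1, this.2]
  have a2 := h2 C (-1 / 2) 1 p l t hC hCc zero_le_one hl hCb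
  have b2 := h2 C (-1 / 2) 1 q m (t + 1) hC hCc zero_le_one hm hCb
  rw [add_comm C] at a2 b2
  have a5 := (h5 C p l t hC hsym hl).1
  have b5 := (h5 C q m (t + 1) hC hsym hm).2
  have memZ0 : ∀ y ∈ hsg p l t, y ∈ Z := by
    intro y hy; rw [← hS0] at hy; exact hy.1
  have memZ1 : ∀ y ∈ hsg q m (t + 1), y ∈ Z := by
    intro y hy; rw [← hS1] at hy; exact hy.1
  have a3 := h3 Z t p q l m κ hZ hZc hl hm hκ (memZ0 _ ⟨le_refl _, by simpa using hl, rfl⟩)
    (memZ0 _ ⟨by simpa using hl, le_refl _, rfl⟩) (memZ1 _ ⟨le_refl _, by simpa using hm, rfl⟩)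
    (memZ1 _ ⟨by simpa using hm, le_refl _, rfl⟩) hZt
  -- compactness
  have hc0 : IsCompact (hsg p l t) := by
    rw [← hS0]; exact hZ.inter_right (isClosed_eq continuous_snd continuous_const)
  have hc1 : IsCompact (hsg q m (t + 1)) := by
    rw [← hS1]; exact hZ.inter_right (isClosed_eq continuous_snd continuous_const)
  have hsub : hsg (-κ) (2 * κ) 0 ⊆ C := by
    intro y hy
    obtain ⟨e1, e2, e3⟩ := hy
    have hk' : ((-κ, 0) : ℝ × ℝ) ∈ C := by
      have := hsym _ hκC
      simpa using this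
    rcases eq_or_lt_of_le hκ with he | hlt
    · have : y = (κ, 0) := by
        ext
        · simp only; linarith
        · simpa using e3
      rw [this]; exact hκC
    · have key : y = ((κ - y.1) / (2 * κ)) • ((-κ, 0) : ℝ × ℝ) +
          ((y.1 + κ) / (2 * κ)) • ((κ, 0) : ℝ × ℝ) := by
        ext
        · simp only [Prod.fst_add, Prod.smul_fst, smul_eq_mul]
          field_simp
          ring
        · simp only [Prod.snd_add, Prod.smul_snd, smul_eq_mul, e3]
          ring
      rw [key]
      refine hCc hk' hκC (div_nonneg (by linarith) (by linarith))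
        (div_nonneg (by linarith) (by linarith)) ?_
      field_simp
      ring
  have hck : IsCompact (hsg (-κ) (2 * κ) 0) := by
    have : hsg (-κ) (2 * κ) 0 = C ∩ {x | -κ ≤ x.1 ∧ x.1 ≤ -κ + 2 * κ ∧ x.2 = 0} := by
      ext y
      constructor
      · intro hy; exact ⟨hsub hy, hy⟩
      · intro hy; exact hy.2
    rw [this]
    refine hC.inter_right ?_
    refine (isClosed_le continuous_const continuous_fst).inter
      ((isClosed_le continuous_fst continuous_const).inter
        (isClosed_eq continuous_snd continuous_const))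
  have hcZk : IsCompact (Z + hsg (-κ) (2 * κ) 0) := hZ.add hck
  have hcA : IsCompact (hsg p l t + C) := hc0.add hC
  have hcB : IsCompact (hsg q m (t + 1) + C) := hc1.add hC
  have hcZC : IsCompact (Z + C) := hZ.add hC
  -- the three sets
  set A : Set (ℝ × ℝ) := (hsg p l t + C) ∩ {x | x.2 < t} with hA
  set B : Set (ℝ × ℝ) := (hsg q m (t + 1) + C) ∩ {x | t + 1 < x.2} with hB
  set D : Set (ℝ × ℝ) := Z + hsg (-κ) (2 * κ) 0 with hD
  have hDt : ∀ x ∈ D, t ≤ x.2 ∧ x.2 ≤ t + 1 := by
    rintro x ⟨z, hz, y, hy, rfl⟩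
    have := hZt z hz
    have hy2 : y.2 = 0 := hy.2.2
    simp only [Prod.snd_add, hy2, add_zero]
    exact this
  have hmB : MeasurableSet B :=
    hcB.measurableSet.inter (measurableSet_lt measurable_const measurable_snd)
  have hmD : MeasurableSet D := hcZk.measurableSet
  have hdis1 : Disjoint A D := by
    rw [Set.disjoint_left]
    intro x hx hx'
    have h1 : x.2 < t := hx.2
    linarith [(hDt x hx').1]
  have hdis2 : Disjoint (A ∪ D) B := by
    rw [Set.disjoint_left]
    intro x hx hx'
    have h1 : t + 1 < x.2 := hx'.2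
    rcases hx with hx | hx
    · have h2 : x.2 < t := hx.2
      linarith
    · linarith [(hDt x hx).2]
  have hsubU : (A ∪ D) ∪ B ⊆ Z + C := by
    apply Set.union_subset
    · apply Set.union_subset
      · exact (Set.inter_subset_left).trans (Set.add_subset_add_right memZ0)
      · exact Set.add_subset_add_left hsub
    · exact (Set.inter_subset_left).trans (Set.add_subset_add_right memZ1)
  have hfA : volume A ≠ ⊤ := ne_top_of_le_ne_top hcA.measure_lt_top.ne
    (measure_mono Set.inter_subset_left)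
  have hfB : volume B ≠ ⊤ := ne_top_of_le_ne_top hcB.measure_lt_top.ne
    (measure_mono Set.inter_subset_left)
  have hfD : volume D ≠ ⊤ := hcZk.measure_lt_top.ne
  have hfZ : volume (Z + C) ≠ ⊤ := hcZC.measure_lt_top.ne
  have hvol : ar A + ar D + ar B ≤ ar (Z + C) := by
    unfold ar
    rw [← ENNReal.toReal_add hfA hfD, ← ENNReal.toReal_add (by
      rw [ENNReal.add_ne_top]; exact ⟨hfA, hfD⟩) hfB,
      ← measure_union hdis1 hmD, ← measure_union hdis2 hmB]
    exact ENNReal.toReal_mono hfZ (measure_mono hsubU)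
  rw [a5, b5] at hvol
  linarith

end Pool.Agent.H59.TSD
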